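import Pool.Agent.TH735.AQ.Crit

set_option autoImplicit false

/-!
# Strong abundance for nef rational classes on quotients of complex tori by finite groups

Let `X = V / Γ` be the quotient of a complex torus of any dimension by any finite group, projective or
not, smooth or singular. Every nef rational `(1,1)`-class on `X` is the pullback of an ample rational class
under a fibration of `X` over a torus quotient, and this fibration is unique up to isomorphism of the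
target. Classes are written as hermitian forms on `V`.

`latt`, `IsTorusQuotient` and `LineBundle` are defined in `Pool.Agent.W594.SYZ.Defs2`; `IsHermitian`,
`IsChernForm`, `IsNefForm` and `IsPositiveForm` in `Pool.Agent.W594.SYZ.TQDefs`; `IsFibration` in
`Pool.Agent.TH735.AQ.Defs`.
-/

namespace Pool.Agent.Results.MP_cfacaa_ag.TorusQuotientsUniqueFibration

open Pool.Agent.W594.SYZ2 Pool.Agent.W594.SYZ2.TQ Pool.Agent.TH735.AQ

variable {V : Type*} [NormedAddCommGroup V] [NormedSpace ℂ V]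

/-- `H` is a rational class of type `(1,1)` on `X = V / Γ`: `N H` is the Chern form of a line bundle on `X`
for some `N ≥ 1`. -/
def IsRationalClass (Γ : Subgroup (V ≃ᵃ[ℂ] V)) (H : V → V → ℂ) : Prop :=
  ∃ (N : ℕ) (L : LineBundle Γ), 1 ≤ N ∧ IsChernForm L (fun v w => (N : ℂ) * H v w)

/-- `H = g^* L_B` for the map `g : V / Γ → B = ℂ ^ n / Δ` induced by the linear map `π`, where `L_B` is an
ample rational class on `B`: a positive definite form which is a rational class on `B`. -/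
def IsPullback (H : V → V → ℂ) {n : ℕ} (Δ : Subgroup ((Fin n → ℂ) ≃ᵃ[ℂ] (Fin n → ℂ)))
    (π : V →ₗ[ℂ] (Fin n → ℂ)) : Prop :=
  ∃ HB : (Fin n → ℂ) → (Fin n → ℂ) → ℂ, IsRationalClass Δ HB ∧ IsPositiveForm HB ∧
    ∀ v w, H v w = HB (π v) (π w)

/-- An isomorphism of the targets of the maps given by `π` and `π'`: a linear isomorphism `e` with
`e ∘ π = π'` which carries the group `Δ` onto `Δ'`. -/
def IsIsoOver {n n' : ℕ} (Δ : Subgroup ((Fin n → ℂ) ≃ᵃ[ℂ] (Fin n → ℂ)))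
    (Δ' : Subgroup ((Fin n' → ℂ) ≃ᵃ[ℂ] (Fin n' → ℂ))) (π : V →ₗ[ℂ] (Fin n → ℂ))
    (π' : V →ₗ[ℂ] (Fin n' → ℂ)) (e : (Fin n → ℂ) ≃ₗ[ℂ] (Fin n' → ℂ)) : Prop :=
  (∀ v, e (π v) = π' v) ∧ (∀ δ ∈ Δ, ∃ δ' ∈ Δ', ∀ x, δ' (e x) = e (δ x)) ∧
    ∀ δ' ∈ Δ', ∃ δ ∈ Δ, ∀ x, δ' (e x) = e (δ x)

/-- `H` is the pullback of an ample rational class under some fibration over a torus quotient. -/
def HasFibration (Γ : Subgroup (V ≃ᵃ[ℂ] V)) (H : V → V → ℂ) : Prop :=
  ∃ (n : ℕ) (Δ : Subgroup ((Fin n → ℂ) ≃ᵃ[ℂ] (Fin n → ℂ))) (π : V →ₗ[ℂ] (Fin n → ℂ)),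
    IsFibration Γ Δ π ∧ IsPullback H Δ π

/-- The fibration is unique: any two have isomorphic targets, compatibly with the fibrations. -/
def UniqueFibration (Γ : Subgroup (V ≃ᵃ[ℂ] V)) (H : V → V → ℂ) : Prop :=
  ∀ (n n' : ℕ) (Δ : Subgroup ((Fin n → ℂ) ≃ᵃ[ℂ] (Fin n → ℂ)))
    (Δ' : Subgroup ((Fin n' → ℂ) ≃ᵃ[ℂ] (Fin n' → ℂ)))
    (π : V →ₗ[ℂ] (Fin n → ℂ)) (π' : V →ₗ[ℂ] (Fin n' → ℂ)),
    IsFibration Γ Δ π → IsPullback H Δ π → IsFibration Γ Δ' π' → IsPullback H Δ' π' →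
    ∃ e : (Fin n → ℂ) ≃ₗ[ℂ] (Fin n' → ℂ), IsIsoOver Δ Δ' π π' e

/-- The Chern form of a line bundle which is, up to a power, a pullback, is the pullback. -/
theorem form_of_induces [FiniteDimensional ℂ V] {Γ : Subgroup (V ≃ᵃ[ℂ] V)} (hΓ : IsTorusQuotient Γ)
    {M : LineBundle Γ} {H : V → V → ℂ}
    (hc : IsChernForm M H) {n : ℕ} {Δ : Subgroup ((Fin n → ℂ) ≃ᵃ[ℂ] (Fin n → ℂ))}
    {π : V →ₗ[ℂ] (Fin n → ℂ)} (hfib : IsFibration Γ Δ π) (hind : Induces M Δ π) :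
    ∃ (m : ℕ) (A : LineBundle Δ) (HA : (Fin n → ℂ) → (Fin n → ℂ) → ℂ), 1 ≤ m ∧ IsChernForm A HA ∧
      IsPositiveForm HA ∧ ∀ v w, HA (π v) (π w) = m * H v w := by
  obtain ⟨hH, F, hF, hFe⟩ := hc
  obtain ⟨m, hm, A, HA, ⟨hHA, G, hG, hGe⟩, hpos, h, hh, hne, heq⟩ := hind
  have hmr : ∀ z : ℂ, ((m : ℂ) * z).re = (m : ℝ) * z.re := fun z => by
    have : ((m : ℕ) : ℂ) = ((m : ℝ) : ℂ) := by push_cast; rfl
    rw [this, Complex.re_ofReal_mul]
  let D : V → V → ℂ := fun v w => HA (π v) (π w) - m * H v w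
  have hD : IsHermitian D := by
    refine ⟨fun u v w => ?_, fun a v w => ?_, fun v w => ?_⟩
    · simp only [D]
      rw [map_add, hHA.add_left, hH.add_left]
      ring
    · simp only [D]
      rw [map_smul, hHA.smul_left, hH.smul_left]
      ring
    · simp only [D]
      rw [map_sub, map_mul, ← hHA.symm, ← hH.symm, Complex.conj_natCast]
  have hGπ : Differentiable ℂ fun v => G (π v) := by
    have h1 : (fun v => π v) = LinearMap.toContinuousLinearMap π := rfl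
    have h2 : Differentiable ℂ fun v => π v := by
      rw [h1]
      exact ContinuousLinearMap.differentiable _
    exact hG.comp h2
  have hpot : IsCobPot Γ h D (fun v => G (π v) - m * F v) := by
    intro γ v
    obtain ⟨δ, hδ, hδγ⟩ := hfib.maps γ γ.2
    have h1 := congrArg norm (heq γ ⟨δ, hδ⟩ hδγ v)
    rw [norm_mul, norm_mul] at h1
    have h5 : (δ : (Fin n → ℂ) ≃ᵃ[ℂ] (Fin n → ℂ)) (π v) = π ((γ : V ≃ᵃ[ℂ] V) v) := hδγ v
    have h2 := hGe ⟨δ, hδ⟩ (π v)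
    change ‖A.e ⟨δ, hδ⟩ (π v)‖ ^ 2 = Real.exp (Real.pi * (HA (δ (π v)) (δ (π v))).re
      + 2 * (G (δ (π v))).re - (Real.pi * (HA (π v) (π v)).re + 2 * (G (π v)).re)) at h2
    rw [h5] at h2
    have h3 : ‖(M.pow m).e γ v‖ ^ 2 = Real.exp (m * (Real.pi * (H ((γ : V ≃ᵃ[ℂ] V) v)
        ((γ : V ≃ᵃ[ℂ] V) v)).re + 2 * (F ((γ : V ≃ᵃ[ℂ] V) v)).re
          - (Real.pi * (H v v).re + 2 * (F v).re))) := by
      change ‖M.e γ v ^ m‖ ^ 2 = _
      rw [norm_pow, ← pow_mul, mul_comm m 2, pow_mul, hFe, ← Real.exp_nat_mul]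
    have h4 : ‖h ((γ : V ≃ᵃ[ℂ] V) v)‖ ^ 2 * ‖(M.pow m).e γ v‖ ^ 2
        = ‖A.e ⟨δ, hδ⟩ (π v)‖ ^ 2 * ‖h v‖ ^ 2 := by
      rw [← mul_pow, h1, mul_pow]
    rw [h2, h3] at h4
    have h6 := Real.exp_ne_zero (m * (Real.pi * (H ((γ : V ≃ᵃ[ℂ] V) v)
        ((γ : V ≃ᵃ[ℂ] V) v)).re + 2 * (F ((γ : V ≃ᵃ[ℂ] V) v)).re
          - (Real.pi * (H v v).re + 2 * (F v).re)))
    apply mul_right_cancel₀ h6
    rw [h4, mul_right_comm, ← Real.exp_add]
    congr 2
    simp only [D, Complex.sub_re, hmr]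
    ring
  have h0 := cob_zero hΓ hh hne hD (hGπ.sub (hF.const_mul _)) hpot
  exact ⟨m, A, HA, hm, ⟨hHA, G, hG, hGe⟩, hpos, fun v w => sub_eq_zero.1 (h0 v w)⟩

/-- a pullback of a positive form has the kernel of `π` as its kernel -/
theorem ker_of_pullback {H : V → V → ℂ} {n : ℕ} {Δ : Subgroup ((Fin n → ℂ) ≃ᵃ[ℂ] (Fin n → ℂ))}
    {π : V →ₗ[ℂ] (Fin n → ℂ)} (h : IsPullback H Δ π) (v : V) : π v = 0 ↔ ∀ w, H v w = 0 := by
  obtain ⟨HB, ⟨N, L, hN, hc⟩, hpos, heq⟩ := h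
  have hN0 : (N : ℂ) ≠ 0 := by
    have : N ≠ 0 := by omega
    exact_mod_cast this
  constructor
  · intro hv w
    have h1 : (N : ℂ) * HB 0 (π w) = 0 := h_zero_left hc.1 (π w)
    rw [heq, hv]
    exact (mul_eq_zero.1 h1).resolve_left hN0
  · intro hv
    by_contra hne
    have h2 := hpos _ hne
    rw [← heq, hv v] at h2
    simp at h2

/-- **Existence.** Every nef rational class `H` of type `(1,1)` on a torus quotient `X = V / Γ` is the
pullback of an ample rational class under a fibration of `X` over a torus quotient; conversely such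
pullbacks are nef. **Uniqueness.** If the fibrations `X → ℂ ^ n / Δ` and `X → ℂ ^ n' / Δ'` both have this
property, then they differ by an isomorphism of the targets, which is induced by a linear isomorphism. -/
theorem result [FiniteDimensional ℂ V] (Γ : Subgroup (V ≃ᵃ[ℂ] V)) (hΓ : IsTorusQuotient Γ)
    (H : V → V → ℂ) (hr : IsRationalClass Γ H) :
    (IsNefForm H ↔ HasFibration Γ H) ∧ UniqueFibration Γ H := by
  refine ⟨⟨fun hn => ?_, ?_⟩, ?_⟩
  · obtain ⟨N, L, hN, hc⟩ := hr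
    have hN0 : (N : ℂ) ≠ 0 := by
      have : N ≠ 0 := by omega
      exact_mod_cast this
    have hNr : ∀ z : ℂ, ((N : ℂ) * z).re = (N : ℝ) * z.re := fun z => by
      have : ((N : ℕ) : ℂ) = ((N : ℝ) : ℂ) := by push_cast; rfl
      rw [this, Complex.re_ofReal_mul]
    have hn' : IsNefForm fun v w => (N : ℂ) * H v w := fun v => by
      rw [hNr]
      exact mul_nonneg (Nat.cast_nonneg _) (hn v)
    obtain ⟨k, P, hk, hP, n, Δ, π, -, h5, h6⟩ := numerical hΓ hc hn'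
    obtain ⟨m, A, HA, hm, hA, hpos, heq⟩ := form_of_induces hΓ (chern_tensor hc hP k) h5 h6
    have hk0 : (k : ℂ) ≠ 0 := by
      have : k ≠ 0 := by omega
      exact_mod_cast this
    have hm0 : (m : ℂ) ≠ 0 := by
      have : m ≠ 0 := by omega
      exact_mod_cast this
    set T : ℕ := m * k * N with hT
    have hT1 : 1 ≤ T := Nat.mul_pos (Nat.mul_pos hm hk) hN
    have hTc : (T : ℂ) = m * k * N := by rw [hT]; push_cast; rfl
    have hT0 : (T : ℂ) ≠ 0 := by rw [hTc]; exact mul_ne_zero (mul_ne_zero hm0 hk0) hN0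
    refine ⟨n, Δ, π, h5, fun x y => (T : ℂ)⁻¹ * HA x y, ⟨T, A, hT1, ?_⟩, ?_, ?_⟩
    · have h1 : (fun x y => (T : ℂ) * ((T : ℂ)⁻¹ * HA x y)) = HA := by
        funext x y
        rw [← mul_assoc, mul_inv_cancel₀ hT0, one_mul]
      rw [h1]
      exact hA
    · intro x hx
      have h1 : (T : ℂ)⁻¹ = (((T : ℝ)⁻¹ : ℝ) : ℂ) := by push_cast; rfl
      rw [h1, Complex.re_ofReal_mul]
      have h2 : (0 : ℝ) < (T : ℝ)⁻¹ := inv_pos.2 (by exact_mod_cast hT1)
      exact mul_pos h2 (hpos x hx)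
    · intro v w
      change H v w = (T : ℂ)⁻¹ * HA (π v) (π w)
      rw [heq, eq_inv_mul_iff_mul_eq₀ hT0, hTc]
      ring
  · rintro ⟨n, Δ, π, h5, HB, ⟨N, L, hN, hc⟩, hpos, heq⟩ v
    rw [heq]
    by_cases hv : π v = 0
    · have hN0 : (N : ℂ) ≠ 0 := by
        have : N ≠ 0 := by omega
        exact_mod_cast this
      have h1 : (N : ℂ) * HB 0 (π v) = 0 := h_zero_left hc.1 (π v)
      rw [hv] at h1 ⊢
      rw [(mul_eq_zero.1 h1).resolve_left hN0]
      simp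
    · exact (hpos _ hv).le
  · intro n n' Δ Δ' π π' hf hp hf' hp'
    have hker : ∀ v, π v = 0 ↔ π' v = 0 := fun v =>
      (ker_of_pullback hp v).trans (ker_of_pullback hp' v).symm
    have hkk : LinearMap.ker π = LinearMap.ker π' := by
      ext v
      rw [LinearMap.mem_ker, LinearMap.mem_ker]
      exact hker v
    let e : (Fin n → ℂ) ≃ₗ[ℂ] (Fin n' → ℂ) :=
      (π.quotKerEquivOfSurjective hf.surj).symm ≪≫ₗ
        (Submodule.quotEquivOfEq _ _ hkk) ≪≫ₗ (π'.quotKerEquivOfSurjective hf'.surj)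
    have he : ∀ v, e (π v) = π' v := by
      intro v
      have h1 : (π.quotKerEquivOfSurjective hf.surj).symm (π v) = Submodule.Quotient.mk v := by
        rw [LinearEquiv.symm_apply_eq]
        rfl
      simp only [e, LinearEquiv.trans_apply]
      rw [h1]
      rfl
    refine ⟨e, he, ?_, ?_⟩
    · intro δ hδ
      obtain ⟨γ, hγ, h1⟩ := hf.onto δ hδ
      obtain ⟨δ', hδ', h2⟩ := hf'.maps γ hγ
      refine ⟨δ', hδ', fun x => ?_⟩
      obtain ⟨v, rfl⟩ := hf.surj x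
      rw [he, h2, h1, he]
    · intro δ' hδ'
      obtain ⟨γ, hγ, h1⟩ := hf'.onto δ' hδ'
      obtain ⟨δ, hδ, h2⟩ := hf.maps γ hγ
      refine ⟨δ, hδ, fun x => ?_⟩
      obtain ⟨v, rfl⟩ := hf.surj x
      rw [he, h1, h2, he]

end Pool.Agent.Results.MP_cfacaa_ag.TorusQuotientsUniqueFibration
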